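import Mathlib
import Pool.Agent.H.MP_59b15d_al.h95t.Main

set_option autoImplicit false

namespace Pool.Agent.Results.MP_59b15d_al.LevelTwoCover

open Pool.MP_59b15d_al.H24T Pool.MP_59b15d_al.H76R
open Pool.MP_59b15d_al.H76 (StdGen InnMod)
open Pool.Agent.H.MP_59b15d_al

/-- The mapping classes which act trivially on `G / γ`, where `γ` is the term number `k` (starting
with 0) of the lower central series of the subgroup generated by all squares. -/
def Deep {g : ℕ} {G : Type} [Group G] (a b : Fin g → G) (k : ℕ) (ψ : MulAut G) : Prop :=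
  ψ ∈ MCG a b ∧
    ∀ x : G, ψ x * x⁻¹ ∈ (Subgroup.closure (Set.range fun x : G => x ^ 2)).lowerCentralSeries k

/-- Let `G` be the fundamental group of a closed surface of genus `g ≥ 4` and `H` a group of
automorphisms of `G` of finite index relative to the mapping class group `MCG a b`. There is a
characteristic subgroup `Γ` of finite index in `G` such that, for every `k`, the elements of `MCG a b`
acting trivially on `G / Γ` and, if `H` contains the inner automorphisms, the elements of `MCG a b`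
which are inner modulo `Γ` are products of an element of `H` and a mapping class acting trivially on
`G / γ`, where `γ` is the term number `k` of the lower central series of the subgroup generated by
all squares, the kernel of `G → H₁(G; ℤ/2)`. -/
theorem result (g : ℕ) (hg : 4 ≤ g) (G : Type) [Group G] (a b : Fin g → G) (h : StdGen a b)
    (H : Subgroup (MulAut G)) (hH : H.relIndex (MCG a b) ≠ 0) :
    ∃ Γ : Subgroup G, Γ.Characteristic ∧ Γ.FiniteIndex ∧ ∀ k : ℕ,
      (∀ φ ∈ MCG a b, (∀ x : G, φ x * x⁻¹ ∈ Γ) → ∃ ψ, Deep a b k ψ ∧ φ * ψ⁻¹ ∈ H) ∧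
      ((∀ x : G, MulAut.conj x ∈ H) →
        ∀ φ ∈ MCG a b, InnMod Γ φ → ∃ ψ, Deep a b k ψ ∧ φ * ψ⁻¹ ∈ H) := by
  have hs : IsSurf a b := by obtain ⟨e, he⟩ := h; exact ⟨⟨e, he⟩⟩
  obtain ⟨Γ, hc, hf, h1⟩ := H95T.main_all hs hg H hH
  refine ⟨Γ, hc, hf, fun k => ⟨fun φ hφ h2 => ?_, fun hI φ hφ h2 => ?_⟩⟩
  · obtain ⟨ψ, h3, h4, h5⟩ := (h1 k).1 φ hφ h2
    rw [H95T.KK_eq hs] at h4
    exact ⟨ψ, ⟨h3, h4⟩, h5⟩
  · obtain ⟨ψ, h3, h4, h5⟩ := (h1 k).2 hI φ hφ h2
    rw [H95T.KK_eq hs] at h4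
    exact ⟨ψ, ⟨h3, h4⟩, h5⟩

end Pool.Agent.Results.MP_59b15d_al.LevelTwoCover
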