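import Mathlib
import Pool.Agent.H.MP_59b15d_al.lin.Cong
import Pool.Agent.H.MP_59b15d_al.lin.GenR
import Pool.Agent.H.MP_59b15d_al.h93c.Final
import Pool.Agent.H.MP_59b15d_al.pk.Fin3
import Pool.Agent.H.MP_59b15d_al.h78e.LastZ

set_option autoImplicit false

namespace Pool.Agent.Results.MP_59b15d_al.LinearQuotients

open Pool.MP_59b15d_al.H24T Pool.MP_59b15d_al.H76R Pool.MP_59b15d_al.H73E Pool.MP_59b15d_al.H40L
open Pool.Agent.H.MP_59b15d_al.H73X (congr_of_rels)
open Pool.Agent.H.MP_59b15d_al.SP Pool.Agent.H.MP_59b15d_al.Lin Pool.Agent.H.MP_59b15d_al.H93C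
open Pool.MP_59b15d_al.H76 (StdGen InnMod)
open Pool.Agent.H.MP_59b15d_al

/-- The largest subgroup of `H` normalised by `M`. -/
theorem exists_core {A : Type*} [Group A] (H M : Subgroup A) (h0 : H.relIndex M ≠ 0) :
    ∃ N : Subgroup A, N ≤ H ∧ N.relIndex M ≠ 0 ∧ (∀ f ∈ M, ∀ x ∈ N, f * x * f⁻¹ ∈ N) ∧
      ∀ x ∈ M, (∀ f ∈ M, f * x * f⁻¹ ∈ H) → x ∈ N := by
  have : (H.subgroupOf M).FiniteIndex := ⟨h0⟩
  obtain ⟨K, hK⟩ : ∃ K : Subgroup M, K = (H.subgroupOf M).normalCore := ⟨_, rfl⟩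
  have nK : K.Normal := by rw [hK]; infer_instance
  refine ⟨K.map M.subtype, ?_, ?_, ?_, ?_⟩
  · rintro _ ⟨k, hk, rfl⟩
    rw [hK] at hk
    have h1 := Subgroup.normalCore_le (H.subgroupOf M) hk
    exact h1
  · have h1 : (K.map M.subtype).subgroupOf M = K :=
      Subgroup.comap_map_eq_self_of_injective M.subtype_injective K
    rw [Subgroup.relIndex, h1, hK]
    exact (inferInstance : (H.subgroupOf M).normalCore.FiniteIndex).index_ne_zero
  · rintro f hf _ ⟨k, hk, rfl⟩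
    exact ⟨⟨f, hf⟩ * k * ⟨f, hf⟩⁻¹, nK.conj_mem k hk ⟨f, hf⟩, rfl⟩
  · intro x hx hc
    refine ⟨⟨x, hx⟩, ?_, rfl⟩
    rw [hK]
    intro f
    exact hc f f.2


/-- An automorphism which acts trivially on the first homology modulo `n` acts trivially on the
classes modulo `n`. -/
theorem dv_of_comm {m : ℕ} {G : Type} [Group G] {a b : Fin m → G} (hs : IsSurf a b) {n : ℕ}
    {φ : MulAut G} {x : G} (hφ : ∃ y : G, φ x * x⁻¹ * y ^ n ∈ commutator G) :
    Dv (n : ℤ) (cls hs (φ x) - cls hs x) := by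
  obtain ⟨y, hy⟩ := hφ
  have h0 : ∀ z ∈ commutator G, cls hs z = 0 := by
    intro z hz
    have hle : commutator G ≤ (exists_abm hs).choose.ker :=
      Abelianization.commutator_subset_ker _
    have h1 := hle hz
    rw [MonoidHom.mem_ker] at h1
    change Multiplicative.toAdd ((exists_abm hs).choose z) = 0
    rw [h1]
    rfl
  have h1 := h0 _ hy
  have hpow : ∀ k : ℕ, cls hs (y ^ k) = k • cls hs y := by
    intro k
    induction k with
    | zero => rw [pow_zero, cls_one, zero_smul]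
    | succ k ih => rw [pow_succ, cls_mul, ih, succ_nsmul]
  rw [cls_mul, cls_mul, cls_inv, hpow] at h1
  refine ⟨-cls hs y, ?_⟩
  rw [smul_neg, natCast_zsmul]
  have h2 : cls hs (φ x) - cls hs x =
      (cls hs (φ x) + -cls hs x + n • cls hs y) - n • cls hs y := by abel
  rw [h2, h1, zero_sub]

/-- Every subgroup `H` of finite index which contains the mapping classes with the property `K`
contains a congruence subgroup. -/
def CongAbove {g : ℕ} {G : Type} [Group G] (a b : Fin g → G) (K : MCG a b → Prop) : Prop :=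
  ∀ H : Subgroup (MulAut G), H.relIndex (MCG a b) ≠ 0 → (∀ φ : MCG a b, K φ → ↑φ ∈ H) →
    ∃ Γ : Subgroup G, Γ.Characteristic ∧ Γ.FiniteIndex ∧ ∀ φ ∈ MCG a b, InnMod Γ φ → φ ∈ H

/-- The mapping classes which act trivially on the first homology modulo `n`. -/
def TrivMod {g : ℕ} {G : Type} [Group G] {a b : Fin g → G} (n : ℕ) (φ : MCG a b) : Prop :=
  ∀ x : G, ∃ y : G, (φ : MulAut G) x * x⁻¹ * y ^ n ∈ commutator G

section defs

variable {A F V : Type} [Group A] [Field F] [AddCommGroup V] [Module F V]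

/-- The operators `ρ x` are multiplicative up to scalars in `Z`: they define a homomorphism to
`GL(V) / Z`. -/
def HomMod (Z : Subgroup Fˣ) (ρ : A → (V ≃ₗ[F] V)) : Prop :=
  ∀ x y, ∃ c ∈ Z, ∀ v, ρ (x * y) v = c • ρ x (ρ y v)

/-- The operator `ρ x` is a scalar in `Z`. -/
def Scal (Z : Subgroup Fˣ) (ρ : A → (V ≃ₗ[F] V)) (x : A) : Prop := ∃ c ∈ Z, ∀ v, ρ x v = c • v

/-- Every subspace which is stable under all `ρ x` has a stable complement. -/
def Semisimple (ρ : A → (V ≃ₗ[F] V)) : Prop :=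
  ∀ U : Submodule F V, (∀ x, ∀ u ∈ U, ρ x u ∈ U) →
    ∃ W : Submodule F V, (∀ x, ∀ w ∈ W, ρ x w ∈ W) ∧ IsCompl U W

/-- The image in `GL(V) / Z` has no nontrivial abelian normal subgroup. -/
def NoAbelian (Z : Subgroup Fˣ) (ρ : A → (V ≃ₗ[F] V)) : Prop :=
  ∀ N : Subgroup A, N.Normal →
    (∀ x ∈ N, ∀ y ∈ N, ∃ c ∈ Z, ∀ v, ρ x (ρ y v) = c • ρ y (ρ x v)) → ∀ x ∈ N, Scal Z ρ x

end defs

/-- Let `G` be the fundamental group of a closed surface of genus `g ≥ 6`, `V` a vector space over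
any field of dimension less than `2 ^ g` (less than `2 g (g - 1)` if `g < 8`), `Z` a group of scalars
and `ρ` a homomorphism of the mapping class group to `GL(V) / Z` (linear representations: `Z = 1`;
projective representations: `Z` all scalars). If `ρ` is semisimple, it factors through the action
on the first homology modulo the characteristic of the field. If `ρ` is semisimple or its image has
no nontrivial abelian normal subgroup, then it kills the Torelli group and every subgroup of finite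
index which contains the kernel of `ρ` is a congruence subgroup. For all `ρ`: on the Torelli group,
`ρ` lifts to a unipotent representation in `GL(V)`, whose kernel contains an element which is not an
inner automorphism. If the characteristic is zero and a power of a twist acts by a scalar, `ρ` is
trivial. Moreover, if `ρ` is a linear representation of dimension less than `18 r (r - 1)`,
`r = ⌊g / 3⌋`, then every subgroup of finite index which contains the inner automorphisms and the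
kernel of `ρ` is a congruence subgroup. -/
theorem result (g : ℕ) (hg : 6 ≤ g) (G : Type) [Group G] (a b : Fin g → G) (h : StdGen a b)
    (F V : Type) [Field F] [AddCommGroup V] [Module F V] [FiniteDimensional F V] :
    (∀ (Z : Subgroup Fˣ) (ρ : MCG a b → (V ≃ₗ[F] V)), HomMod Z ρ →
      Module.finrank F V < (if g < 8 then 2 * g * (g - 1) else 2 ^ g) →
      (Semisimple ρ → ∀ n : ℕ, (n : F) = 0 → ∀ φ : MCG a b, TrivMod n φ → Scal Z ρ φ) ∧
      (Semisimple ρ ∨ NoAbelian Z ρ →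
        (∀ φ : MCG a b, TrivMod 0 φ → Scal Z ρ φ) ∧ CongAbove a b (Scal Z ρ)) ∧
      (∃ c : MCG a b → Fˣ, (∀ φ, c φ ∈ Z) ∧
        (∀ φ ψ, TrivMod 0 φ → TrivMod 0 ψ →
          ∀ v, c (φ * ψ) • ρ (φ * ψ) v = c φ • ρ φ (c ψ • ρ ψ v)) ∧
        (∀ φ : Fin (Module.finrank F V) → MCG a b, (∀ i, TrivMod 0 (φ i)) →
          (List.ofFn fun i =>
            (c (φ i) : F) • ((ρ (φ i) : V →ₗ[F] V) : Module.End F V) - 1).prod = 0) ∧
        ∃ φ, TrivMod 0 φ ∧ (∀ v, c φ • ρ φ v = v) ∧ ∀ x : G, (φ : MulAut G) ≠ MulAut.conj x) ∧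
      (CharZero F → ∀ (i : Fin g) (t : MCG a b) (n : ℕ), IsA a b i t → n ≠ 0 →
        Scal ⊤ ρ (t ^ n) → ∀ φ : MCG a b, Scal Z ρ φ)) ∧
    ∀ ρ : Representation F (MCG a b) V, Module.finrank F V < 18 * (g / 3 * (g / 3 - 1)) →
      CongAbove a b fun φ => ρ φ = 1 ∨ ∃ x : G, MulAut.conj x = φ := by
  have hs : IsSurf a b := by obtain ⟨e, he⟩ := h; exact ⟨⟨e, he⟩⟩
  have hTor : ∀ φ : MCG a b, TrivMod 0 φ → ∀ x, cls hs ((φ : MulAut G) x) = cls hs x := by
    intro φ hφ x
    obtain ⟨w, hw⟩ := dv_of_comm hs (hφ x)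
    rw [Nat.cast_zero, zero_smul, sub_eq_zero] at hw
    exact hw
  have hTor' : ∀ φ : MCG a b, φ ∈ H52E.Tor hs → TrivMod 0 φ := by
    intro φ hφ x
    refine ⟨1, ?_⟩
    rw [one_pow, mul_one]
    exact H78E.comm_of_tor hs hφ x
  refine ⟨fun Z ρ hZ hdim => ?_, fun ρ hdim H hH hkI => ?_⟩
  · have hZ' : H78E.IsProjZ Z ρ := hZ
    have hdim' : Module.finrank F V < Lft.Bd g := hdim
    obtain ⟨A, hA, hB⟩ := H78E.exists_Bd hs hZ' hg hdim'
    have hc : (∀ φ : MCG a b, TrivMod 0 φ → Scal Z ρ φ) → CongAbove a b (Scal Z ρ) :=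
      fun hS H hH hk => H78E.congZ (h := hs) (ρ := ρ) (Z := Z) (by omega)
        (fun φ hφ => hS φ (hTor' φ hφ)) H hH hk
    have hL : Semisimple ρ → ∀ n : ℕ, (n : F) = 0 → ∀ φ : MCG a b, TrivMod n φ → Scal Z ρ φ :=
      fun hss n hn φ hφ => H78E.projZ_level hZ' (by omega) hA hB hss (n := (n : ℤ))
        (by exact_mod_cast hn) fun x => dv_of_comm hs (hφ x)
    refine ⟨hL, fun hss => ?_, ?_, fun hF i t n ht hn hsc φ => ?_⟩
    · have hS : ∀ φ : MCG a b, TrivMod 0 φ → Scal Z ρ φ := by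
        intro φ hφ
        rcases hss with hss | hN
        · exact hL hss 0 (by simp) φ hφ
        · exact H78E.projZ_noab hZ' (by omega) hB.goodE hN (hTor φ hφ)
      exact ⟨hS, hc hS⟩
    · obtain ⟨c, h0, h1, h2, φ, h3, h4, h5⟩ := H78E.projZ_norm hZ' (by omega) hB.goodE
      refine ⟨c, h0, fun φ ψ hφ hψ v => h1 φ (hTor φ hφ) ψ (hTor ψ hψ) v, fun φ hφ => ?_,
        φ, hTor' φ h3, h4, h5⟩
      have h6 := h2 (List.ofFn φ) ?_ (by rw [List.length_ofFn])
      · rwa [List.map_ofFn] at h6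
      · intro ψ hψ
        obtain ⟨i, rfl⟩ := List.mem_ofFn.1 hψ
        exact hTor _ (hφ i)
    · obtain ⟨c, -, hc⟩ := hsc
      exact H78E.twistZ hs hZ' hg hdim' ht hn ⟨c, hc⟩ φ
  · have hk : ∀ φ : MCG a b, ρ φ = 1 → (φ : MulAut G) ∈ H := fun φ hφ => hkI φ (Or.inl hφ)
    have hI : ∀ x : G, MulAut.conj x ∈ H := fun x =>
      hkI ⟨MulAut.conj x, Subgroup.subset_closure (Or.inl ⟨x, rfl⟩)⟩ (Or.inr ⟨x, rfl⟩)
    have hr : 2 ≤ g / 3 := by omega
    have hrm : 3 * (g / 3) ≤ g := Nat.mul_div_le g 3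
    have hd : 2 * Module.finrank F V < 36 * (g / 3 * (g / 3 - 1)) := by omega
    obtain ⟨N, n1, n2, n3, n4⟩ := exists_core H (MCG a b) hH
    have hNI : ∀ x : G, MulAut.conj x ∈ N := by
      intro x
      have hx : ∀ y : G, MulAut.conj y ∈ MCG a b := fun y =>
        Subgroup.subset_closure (Or.inl ⟨y, rfl⟩)
      refine n4 _ (hx x) fun f _ => ?_
      have h1 : f * MulAut.conj x * f⁻¹ = MulAut.conj (f x) := by
        ext z
        simp
      rw [h1]
      exact hI _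
    have hNρ : ∀ φ : MCG a b, ρ φ = 1 → (φ : MulAut G) ∈ N := by
      intro φ hφ
      refine n4 _ φ.2 fun f hf => ?_
      refine hk (⟨f, hf⟩ * φ * ⟨f, hf⟩⁻¹) ?_
      rw [map_mul, map_mul, hφ, mul_one, ← map_mul, mul_inv_cancel, map_one]
    obtain ⟨n, rfl⟩ : ∃ n, g = n + 1 := ⟨g - 1, by omega⟩
    have hM : MCG a b = MMs hs := MCG_eq hs
    have n3' : ∀ f ∈ MMs hs, ∀ x ∈ N, f * x * f⁻¹ ∈ N := by rw [← hM]; exact n3
    have n2' : N.relIndex (MMs hs) ≠ 0 := by rw [← hM]; exact n2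
    obtain ⟨e1, e2, e3⟩ := gen_R (h := hs) (N := N) hr hrm ρ hd n3' hNρ
    obtain ⟨Γ, h1, h2, h3⟩ := congr_of_rels hs (by omega) N n3' hNI n2' ⟨e1, e2, e3⟩
    rw [hM]
    exact ⟨Γ, h1, h2, fun φ hφ hi => n1 (h3 φ hφ hi)⟩

end Pool.Agent.Results.MP_59b15d_al.LinearQuotients
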