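import Mathlib
import Pool.Agent.H.MP_59b15d_al.qt.Fn

set_option autoImplicit false

namespace Pool.Agent.Results.MP_59b15d_al.QuantumCongruence

open Pool.MP_59b15d_al.H24T Pool.MP_59b15d_al.H76R Pool.MP_59b15d_al.H73E
open Pool.Agent.H.MP_59b15d_al.QT
open Pool.MP_59b15d_al.H76 (StdGen InnMod)

/-- Let `G` and `G'` be the fundamental groups of closed surfaces of genus `g ≥ 3` and `g + 1`, `R`
a noetherian ring, `V` and `V'` finitely generated `R`-modules with projective representations `ρ`
and `ρ'` of the two mapping class groups, and `i : V → V'` an injection compatible with the action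
of the mapping class group of the subsurface of genus `g` with one boundary component (the gluing
property of a modular functor). Let `I` be an ideal such that `R ⧸ I` is finite, or such that for all
`n` a subgroup of finite index of the mapping class group of genus `g + 1` acts on `V' ⧸ I ^ n V'` by
scalars. Then for all `φ` in some congruence subgroup of the mapping class group of genus `g`, the
operator `ρ φ` is congruent modulo `I` to an operator which commutes with the whole representation.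
If only the scalars commute with the representation, then every `H` which contains all mapping
classes acting by scalars modulo `I` contains a congruence subgroup. -/
theorem result (g : ℕ) (hg : 3 ≤ g) (G G' : Type) [Group G] [Group G'] (a b : Fin g → G)
    (a' b' : Fin (g + 1) → G') (h : StdGen a b) (h' : StdGen a' b')
    (R V V' : Type) [CommRing R] [IsNoetherianRing R] [AddCommGroup V] [Module R V]
    [Module.Finite R V] [AddCommGroup V'] [Module R V'] [Module.Finite R V']
    (ρ : MulAut G → Module.End R V) (ρ' : MulAut G' → Module.End R V')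
    (hρ : ProjRep (MCG a b) ρ) (hρ' : ProjRep (MCG a' b') ρ')
    (i : V →ₗ[R] V') (hi : Function.Injective i)
    (hglue : ∀ f ∈ BMod a' b', ∀ φ ∈ MCG a b, Induces a b a' b' f φ →
      ∃ u : Rˣ, ∀ v, ρ' f (i v) = (u : R) • i (ρ φ v))
    (I : Ideal R) (hI : Finite (R ⧸ I) ∨ ∀ n, VirtScalar (MCG a' b') ρ' (I ^ n)) :
    (∃ Γ : Subgroup G, Γ.Characteristic ∧ Γ.FiniteIndex ∧ ∀ φ ∈ MCG a b, InnMod Γ φ →
      ∃ z : Module.End R V, (∀ ψ ∈ MCG a b, z * ρ ψ = ρ ψ * z) ∧
        ρ φ - z ∈ I • (⊤ : Submodule R (Module.End R V))) ∧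
    ((∀ z : Module.End R V, (∀ ψ ∈ MCG a b, z * ρ ψ = ρ ψ * z) → ∃ r : R, z = r • 1) →
      ∀ H : Subgroup (MulAut G), (∀ φ ∈ MCG a b,
        (∃ r : R, ρ φ - r • 1 ∈ I • (⊤ : Submodule R (Module.End R V))) → φ ∈ H) →
        ∃ Γ : Subgroup G, Γ.Characteristic ∧ Γ.FiniteIndex ∧
          ∀ φ ∈ MCG a b, InnMod Γ φ → φ ∈ H) := by
  have hs : IsSurf a b := by obtain ⟨e, he⟩ := h; exact ⟨⟨e, he⟩⟩
  have hs' : IsSurf a' b' := by obtain ⟨e, he⟩ := h'; exact ⟨⟨e, he⟩⟩
  have hM : MCG a b = MMs hs := MCG_eq hs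
  have hM' : MCG a' b' = MMs hs' := MCG_eq hs'
  rw [hM] at hρ hglue
  rw [hM'] at hρ' hI
  obtain ⟨Γ, h1, h2, h3⟩ := quantum hg hs' hs ρ ρ' hρ hρ' i hi hglue I hI
  rw [hM]
  refine ⟨⟨Γ, h1, h2, h3⟩, fun hsc H hH => ⟨Γ, h1, h2, fun φ hφ hinn => ?_⟩⟩
  obtain ⟨z, hz, hz2⟩ := h3 φ hφ hinn
  obtain ⟨r, rfl⟩ := hsc z hz
  exact hH φ hφ ⟨r, hz2⟩

end Pool.Agent.Results.MP_59b15d_al.QuantumCongruence
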