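import Mathlib
import Pool.Agent.H.MP_59b15d_al.h76r.Sd

set_option autoImplicit false

namespace Pool.Agent.Results.MP_59b15d_al.ReducibleCentral

open Pool.MP_59b15d_al.H24T Pool.MP_59b15d_al.H76 Pool.MP_59b15d_al.H76R

/-- Let `G` be the fundamental group of a closed surface of genus at least two and `H` a subgroup of
finite index of its automorphism group that contains the inner automorphisms. Then the elements of
some congruence subgroup that lie in the stabiliser of a simple closed curve commute, modulo `H`,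
with the whole mapping class group. -/
theorem result (g : ℕ) (hg : 2 ≤ g) (G : Type) [Group G] (a b : Fin g → G) (h : StdGen a b) :
    ((∀ i, ∃ T, IsA a b i T) ∧ (∀ i, ∃ T, IsB a b i T) ∧
      ∀ i j : Fin g, (j : ℕ) = i + 1 → ∃ T, IsC a b i j T) ∧
    ∀ H : Subgroup (MulAut G), H.FiniteIndex → (∀ x : G, MulAut.conj x ∈ H) →
      ∃ Γ : Subgroup G, Γ.Characteristic ∧ Γ.FiniteIndex ∧
        ∀ a' b' : Fin g → G, StdGen a' b' → ∀ φ : MulAut G,
          (φ ∈ StabA a' b' ∨ ∃ m, 0 < m ∧ m < g ∧ φ ∈ StabC a' b' m) → InnMod Γ φ →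
            ∀ ψ ∈ MCG a' b', φ * ψ * φ⁻¹ * ψ⁻¹ ∈ H := by
  obtain ⟨n, rfl⟩ : ∃ n, g = n + 1 := ⟨g - 1, by omega⟩
  have hs : ∀ a' b' : Fin (n + 1) → G, StdGen a' b' ↔ IsSurf a' b' := fun a' b' =>
    ⟨fun ⟨e, he⟩ => ⟨⟨e, he⟩⟩, fun ⟨⟨e, he⟩⟩ => ⟨e, he⟩⟩
  have h' := (hs a b).mp h
  refine ⟨⟨fun i => ⟨_, (isA_iff h' i _).mpr rfl⟩, fun i => ⟨_, (isB_iff h' i _).mpr rfl⟩,
    fun i j hij => ⟨_, (isC_iff h' i j hij _).mpr rfl⟩⟩, ?_⟩
  intro H hH hI
  obtain ⟨Γ, hc, hf, hΓ⟩ := main_all h' (by omega) H hH hI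
  exact ⟨Γ, hc, hf, fun a' b' h1 => hΓ a' b' ((hs a' b').mp h1)⟩

end Pool.Agent.Results.MP_59b15d_al.ReducibleCentral
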